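import Pool.Agent.Lib.MP_50ed31_mp.Conv2

/-!
MP_50ed31_mp, Q1 in one variable: pairs of polynomials in `ħ` exist only for conics, and then `f` is
admissible.
-/

open PowerSeries Pool.Agent.Lib.MP_50ed31_mp
open scoped LaurentSeries

universe u

namespace Pool.Agent.Results.MP_50ed31_mp.OneVariable

section defs

variable {K : Type u} [Field K] [CharZero K]

/-- The coefficient `A_k[f,g]`, as a function of the stationary point `x`.  It has a power of
`f''` in the denominator, and is a Laurent series. -/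
noncomputable def coeffA (f : K⟦X⟧) (g : K⸨X⸩) (k : ℕ) : K⸨X⸩ :=
  A (dL K) (dL K (dL K (io K f)))⁻¹ (io K f) g k

/-- There is a nonzero `g = ∑ j, g j * ħ^j`, a polynomial in `ħ`, whose formal Fourier transform is
a polynomial in `ħ`: the coefficient of `ħ^l` is `∑ j ≤ l, A_(l-j)[f, g j]`. -/
def HasPair (f : K⟦X⟧) : Prop :=
  ∃ g : ℕ → K⸨X⸩, (∃ j, g j ≠ 0) ∧ (∃ a, ∀ j, a < j → g j = 0) ∧
    ∃ b, ∀ l, b < l → ∑ j ∈ Finset.range (l + 1), coeffA f (g j) (l - j) = 0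

/-- `f` is admissible -/
def Admissible (f : K⟦X⟧) : Prop :=
  ∃ g : K⟦X⟧, g ≠ 0 ∧ ∀ k, 1 ≤ k → coeffA f (io K g) k = 0

end defs

theorem pair_conic' {K : Type u} [Field K] [CharZero K] {f : K⟦X⟧}
    (hf : d⁄dX K (d⁄dX K f) ≠ 0) (h : HasPair f) : OnConic X f := by
  obtain ⟨g, hg0, ⟨a, ha⟩, b, hb⟩ := h
  exact laurent_conic hf (a := a) (b := b) (g := g) ⟨ha, hb⟩ hg0

theorem admissible_pair {K : Type u} [Field K] [CharZero K] {f : K⟦X⟧} (h : Admissible f) :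
    HasPair f := by
  obtain ⟨g, hg, hA⟩ := h
  have h1 := isPair_of_admissible (δ := dL K) (w := (dL K (dL K (io K f)))⁻¹) (f := io K f)
    (g := io K g) hA
  refine ⟨_, ⟨0, ?_⟩, ⟨0, h1.1⟩, 0, h1.2⟩
  rw [if_pos rfl]
  intro h0
  exact hg (HahnSeries.ofPowerSeries_injective (by rw [h0, map_zero]))

/-- **Q1 for `n = 1`.**  Let `f ∈ K⟦X⟧` with `f'' ≠ 0`.  A nonzero pair of polynomials in `ħ` exists
iff `f` is admissible iff the graph of `f` lies on a conic.  If `f` converges, then `g` can be chosen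
convergent. -/
theorem result :
    (∀ (K : Type u) [Field K] [CharZero K] (f : K⟦X⟧), d⁄dX K (d⁄dX K f) ≠ 0 →
      (HasPair f ↔ Admissible f) ∧ (Admissible f ↔ OnConic X f)) ∧
    (∀ (K : Type u) [RCLike K] (f : K⟦X⟧), d⁄dX K (d⁄dX K f) ≠ 0 → Conv f → HasPair f →
      ∃ g : K⟦X⟧, g ≠ 0 ∧ Conv g ∧ ∀ k, 1 ≤ k → coeffA f (io K g) k = 0) := by
  refine ⟨fun K _ _ f hf => ⟨⟨fun h => conic_admissible hf (pair_conic' hf h), admissible_pair⟩,
    ⟨fun h => pair_conic' hf (admissible_pair h), conic_admissible hf⟩⟩, ?_⟩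
  intro K _ f hf hc hp
  obtain ⟨a, ha, hq⟩ := pair_conic' hf hp
  obtain ⟨-, h0⟩ := conic_hess hf ha hq
  have hu : IsUnit (dX K (dX K f)) := by
    rw [PowerSeries.isUnit_iff_constantCoeff, ← coeff_zero_eq_constantCoeff_apply]
    exact isUnit_iff_ne_zero.mpr h0
  obtain ⟨w, hw⟩ := hu.exists_left_inv
  obtain ⟨g, hg, hA⟩ := exists_A_one hw
  refine ⟨g, hg, admissible_conv hc hw hA, fun k hk => ?_⟩
  have hwL : (dL K (dL K (io K f)))⁻¹ = io K w := by
    rw [inv_eq_iff_eq_inv, eq_comm, inv_eq_iff_eq_inv]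
    refine eq_inv_of_mul_eq_one_left ?_
    rw [dL_coe, dL_coe, ← map_mul, hw, map_one]
  rw [coeffA, hwL, A_nat (io K) dL_coe, conic_exact hw ha hq hA k hk, map_zero]

end Pool.Agent.Results.MP_50ed31_mp.OneVariable
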